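import Pool.Agent.Helper37.DG.Stmts2

set_option autoImplicit false

/-!
Module MOMD of the project DG: moments of the relevant part of the form.
-/

namespace Pool.Agent.Helper37.DG

open Finset
open scoped Classical
open Pool.Agent.Helper17.SO (PP LL)

lemma momd_le {D N M : ℕ} {v : ℤ × ℤ} (hMN : M ≤ N) (hv : v ∈ sbox N M) :
    nmD D v ≤ (D + 1) * N ^ 2 := by
  unfold sbox at hv
  rw [Finset.mem_product, Finset.mem_Icc, Finset.mem_Icc] at hv
  obtain ⟨⟨h1, h2⟩, h3, h4⟩ := hv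
  have hMN' : (M : ℤ) ≤ N := by exact_mod_cast hMN
  have hN : (0 : ℤ) ≤ N := Int.natCast_nonneg N
  have hD : (0 : ℤ) ≤ D := Int.natCast_nonneg D
  have e1 : v.1 ^ 2 ≤ (N : ℤ) ^ 2 := by nlinarith
  have e2 : v.2 ^ 2 ≤ (N : ℤ) ^ 2 := by nlinarith
  have e3 : (D : ℤ) * v.2 ^ 2 ≤ D * (N : ℤ) ^ 2 := mul_le_mul_of_nonneg_left e2 hD
  unfold nmD
  zify
  rw [abs_of_nonneg (by positivity)]
  linarith

lemma momd_pos {D : ℕ} {v : ℤ × ℤ} (hD : 1 ≤ D) (hv : v ≠ 0) : 0 < nmD D v := by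
  unfold nmD
  rw [Int.natAbs_pos]
  intro h
  apply hv
  have hD' : (1 : ℤ) ≤ D := by exact_mod_cast hD
  have e3 : v.2 ^ 2 ≤ (D : ℤ) * v.2 ^ 2 := by nlinarith [sq_nonneg v.2]
  have h1 : v.1 = 0 := by nlinarith [sq_nonneg v.1, sq_nonneg v.2]
  have h2 : v.2 = 0 := by nlinarith [sq_nonneg v.1, sq_nonneg v.2]
  exact Prod.ext h1 h2

lemma momd_mem {D y p : ℕ} :
    p ∈ (PP 0 y).filter (Rel D) ↔ ((0 < p ∧ p ≤ y) ∧ p.Prime) ∧ Rel D p := by
  unfold PP
  rw [Finset.mem_filter, Finset.mem_filter, Finset.mem_Ioc]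

lemma momd_mem2 {D y z p : ℕ} :
    p ∈ PD D y z ↔ ((y < p ∧ p ≤ z) ∧ p.Prime) ∧ Spl D p := by
  unfold PD PP
  rw [Finset.mem_filter, Finset.mem_filter, Finset.mem_Ioc]

lemma momd_dvd {D y : ℕ} {v : ℤ × ℤ} (hD : 1 ≤ D) (hv : v ≠ 0) : msD D y v ∣ nmD D v := by
  have hpos := momd_pos hD hv
  have h1 : msD D y v = ∏ p ∈ ((PP 0 y).filter (Rel D)).filter
      (fun p => p ∈ (nmD D v).primeFactors), p ^ (nmD D v).factorization p := by
    unfold msD
    rw [Finset.prod_filter (p := fun p => p ∈ (nmD D v).primeFactors)]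
    apply Finset.prod_congr rfl
    intro p _
    split_ifs with h
    · rfl
    · rw [← Nat.support_factorization, Finsupp.notMem_support_iff] at h
      rw [h, pow_zero]
  have h2 : nmD D v = ∏ p ∈ (nmD D v).primeFactors, p ^ (nmD D v).factorization p :=
    (Nat.prod_factorization_pow_eq_self hpos.ne').symm
  rw [h1]
  have h3 : (∏ p ∈ ((PP 0 y).filter (Rel D)).filter (fun p => p ∈ (nmD D v).primeFactors),
      p ^ (nmD D v).factorization p) ∣
      ∏ p ∈ (nmD D v).primeFactors, p ^ (nmD D v).factorization p := by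
    apply Finset.prod_dvd_prod_of_subset
    intro p hp
    exact (Finset.mem_filter.1 hp).2
  exact h3.trans (dvd_of_eq h2.symm)

lemma momd_pos2 {D y : ℕ} {v : ℤ × ℤ} : 0 < msD D y v := by
  unfold msD
  apply Finset.prod_pos
  intro p hp
  exact pow_pos (momd_mem.1 hp).1.2.pos _

lemma momd_prime {D y p : ℕ} {v : ℤ × ℤ} (hp : p.Prime) (h : p ∣ msD D y v) :
    p ∈ (PP 0 y).filter (Rel D) := by
  unfold msD at h
  obtain ⟨q, hq, hpq⟩ := (Prime.dvd_finsetProd_iff hp.prime _).1 h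
  have h1 := hp.dvd_of_dvd_pow hpq
  have h2 := (Nat.prime_dvd_prime_iff_eq hp (momd_mem.1 hq).1.2).1 h1
  rw [h2]; exact hq

theorem st_MOMD (hUPS : ST_UPSD) (hLDR : ST_LDR) (hSMS : ST_SMS) : ST_MOMD := by
  intro D hD t
  obtain ⟨b0, C0, hb0, hC0, hU⟩ := hUPS D hD
  obtain ⟨C1, K, hC1, hL⟩ := hLDR 16 t (by norm_num)
  obtain ⟨C2, L, hC2, hS⟩ := hSMS (K + 1)
  refine ⟨2 * b0 + 2, L, C1 * C0 * C2, by omega, by positivity, ?_⟩
  intro j N M y z hy hDy hyz hzN hM hMN hNM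
  have hz2 : 2 ≤ z := by omega
  have hzN1 : z ≤ N := by
    calc z = z ^ 1 := (pow_one z).symm
      _ ≤ z ^ (2 * b0 + 2) := Nat.pow_le_pow_right (by omega) (by omega)
      _ ≤ N := hzN
  have hN2 : 2 ≤ N := by omega
  have hDN : D + 1 ≤ N ^ 2 := by
    have : D + 1 ≤ N := by omega
    nlinarith
  set V := (sbox N M).filter (fun v => v ≠ 0 ∧ Free j (PD D y z) v) with hV
  set F : Finset ℕ := (Finset.Icc 1 N).filter
    (fun e => e ^ 4 ≤ N ∧ ∀ p : ℕ, p.Prime → p ∣ e → p ≤ y) with hF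
  have hF' : ∀ e, e ∈ F ↔ (1 ≤ e ∧ e ≤ N) ∧ e ^ 4 ≤ N ∧
      ∀ p : ℕ, p.Prime → p ∣ e → p ≤ y := by
    intro e; rw [hF, Finset.mem_filter, Finset.mem_Icc]
  -- step 1
  have h1 : ∀ v ∈ V, (tau (msD D y v) : ℝ) ^ t ≤
      C1 * ∑ e ∈ F, if e ∣ nmD D v then (tau e : ℝ) ^ K else 0 := by
    intro v hv
    rw [hV, Finset.mem_filter] at hv
    obtain ⟨hvs, hv0, hvF⟩ := hv
    refine (hL (msD D y v) momd_pos2).trans ?_
    apply mul_le_mul_of_nonneg_left _ hC1.le
    rw [← Finset.sum_filter]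
    apply Finset.sum_le_sum_of_subset_of_nonneg
    · intro e he
      rw [Finset.mem_filter, Nat.mem_divisors] at he
      obtain ⟨⟨hed, hms0⟩, he16⟩ := he
      have hdv : e ∣ nmD D v := hed.trans (momd_dvd hD hv0)
      have he1 : 1 ≤ e := Nat.pos_of_dvd_of_pos hed momd_pos2
      have hmsle : msD D y v ≤ (D + 1) * N ^ 2 :=
        (Nat.le_of_dvd (momd_pos hD hv0) (momd_dvd hD hv0)).trans (momd_le hMN hvs)
      have he4 : e ^ 4 ≤ N := by
        have : (e ^ 4) ^ 4 ≤ N ^ 4 := by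
          calc (e ^ 4) ^ 4 = e ^ 16 := by ring
            _ ≤ (D + 1) * N ^ 2 := he16.trans hmsle
            _ ≤ N ^ 2 * N ^ 2 := Nat.mul_le_mul_right _ hDN
            _ = N ^ 4 := by ring
        exact (Nat.pow_le_pow_iff_left (by norm_num)).1 this
      rw [Finset.mem_filter, hF']
      refine ⟨⟨⟨he1, ?_⟩, he4, ?_⟩, hdv⟩
      · calc e = e ^ 1 := (pow_one e).symm
          _ ≤ e ^ 4 := Nat.pow_le_pow_right he1 (by norm_num)
          _ ≤ N := he4
      · intro p hp hpe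
        have := momd_prime hp (hpe.trans hed)
        rw [momd_mem] at this
        exact this.1.1.2
    · intro e _ _
      positivity
  -- step 3
  have h3 : ∀ e ∈ F, ((V.filter (fun v => e ∣ nmD D v)).card : ℝ) ≤
      C0 * tau e * ((M : ℝ) * N / e) * sw (PD D y z) := by
    intro e he
    rw [hF'] at he
    obtain ⟨⟨he1, heN⟩, he4, hep⟩ := he
    have heM : e ≤ M := (Nat.pow_le_pow_iff_left (by norm_num : (4 : ℕ) ≠ 0)).1 (he4.trans hNM)
    have hsub : V.filter (fun v => e ∣ nmD D v) ⊆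
        (sbox N M).filter (fun v => e ∣ nmD D v ∧ Free j (PD D y z) v) := by
      intro v hv
      rw [hV, Finset.mem_filter, Finset.mem_filter] at hv
      rw [Finset.mem_filter]
      exact ⟨hv.1.1, hv.2, hv.1.2.2⟩
    have hc : ((V.filter (fun v => e ∣ nmD D v)).card : ℝ) ≤
        (((sbox N M).filter (fun v => e ∣ nmD D v ∧ Free j (PD D y z) v)).card : ℝ) := by
      exact_mod_cast Finset.card_le_card hsub
    refine hc.trans ?_
    apply hU j N M z e (PD D y z) hM hMN hz2 he1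
    · have hz1 : z ^ (2 * b0) ≤ N :=
        (Nat.pow_le_pow_right (by omega) (by omega)).trans hzN
      have : (z ^ b0 * e) ^ 4 ≤ N ^ 4 := by
        calc (z ^ b0 * e) ^ 4 = (z ^ (2 * b0)) ^ 2 * e ^ 4 := by ring
          _ ≤ N ^ 2 * N := Nat.mul_le_mul (Nat.pow_le_pow_left hz1 2) he4
          _ = N ^ 3 := by ring
          _ ≤ N ^ 4 := Nat.pow_le_pow_right (by omega) (by norm_num)
      exact (Nat.pow_le_pow_iff_left (by norm_num)).1 this
    · nlinarith
    · intro p hp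
      rw [momd_mem2] at hp
      refine ⟨hp.1.2, by omega, hp.1.1.2, ?_⟩
      intro hpe
      have := hep p hp.1.2 hpe
      omega
  -- assembly
  have hsw : 0 ≤ sw (PD D y z) := (Real.exp_pos _).le
  calc ∑ v ∈ V, (tau (msD D y v) : ℝ) ^ t
      ≤ ∑ v ∈ V, C1 * ∑ e ∈ F, (if e ∣ nmD D v then (tau e : ℝ) ^ K else 0) :=
        Finset.sum_le_sum h1
    _ = C1 * ∑ e ∈ F, (tau e : ℝ) ^ K * (V.filter (fun v => e ∣ nmD D v)).card := by
        rw [← Finset.mul_sum, Finset.sum_comm]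
        congr 1
        apply Finset.sum_congr rfl
        intro e _
        rw [← Finset.sum_filter, Finset.sum_const, nsmul_eq_mul, mul_comm]
    _ ≤ C1 * ∑ e ∈ F, (tau e : ℝ) ^ K *
          (C0 * tau e * ((M : ℝ) * N / e) * sw (PD D y z)) := by
        apply mul_le_mul_of_nonneg_left _ hC1.le
        apply Finset.sum_le_sum
        intro e he
        exact mul_le_mul_of_nonneg_left (h3 e he) (by positivity)
    _ = C1 * (C0 * ((M : ℝ) * N) * sw (PD D y z) * ∑ e ∈ F, (tau e : ℝ) ^ (K + 1) / e) := by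
        congr 1
        rw [Finset.mul_sum]
        apply Finset.sum_congr rfl
        intro e _
        rw [pow_succ]
        ring
    _ ≤ C1 * (C0 * ((M : ℝ) * N) * sw (PD D y z) * (C2 * (1 + Real.log y) ^ L)) := by
        apply mul_le_mul_of_nonneg_left _ hC1.le
        apply mul_le_mul_of_nonneg_left _ (by positivity)
        apply hS y F (by omega)
        intro e he
        rw [hF'] at he
        exact ⟨he.1.1, he.2.2⟩
    _ = C1 * C0 * C2 * (1 + Real.log y) ^ L * ((M : ℝ) * N) * sw (PD D y z) := by ring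

end Pool.Agent.Helper37.DG
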